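import Pool.Agent.R856.DC8

set_option autoImplicit false

/-!
Problem MP_d8c653_nt, question Q1: the conjectured congruence is proved for every prime
`p = 1 (mod 4)`.

Sketch.  Write `p = 4j+1`, `k = [p/12]`, `B = (-1)^k C([p/3],k)`.

1. A polynomial identity (a curve `y^2 = x^3 - 4 kap x` with the point of order three visible over
   `Q(sqrt 3)`) gives, in any field of characteristic `p` with `r^2 = 3` and `kap = -4(3+2r)`:
   `B = C(2j,j) kap^j` when `p = 1 (mod 12)` and `(1-r) B = C(2j,j) kap^j` when `p = 5 (mod 12)`.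
2. `C(2j,j) = 2a (mod p)` with `p = a^2 + b^2` (Gauss), by Jacobi sums.
3. When `p = 1 (mod 12)`, `p + 1 - B*` is the number of points over `F_p` of a curve with rational
   points of order two and three, where `B*` is the least residue of `B`; this fixes `B*` modulo 6.
4. When `p = 5 (mod 12)` the curve is twisted by a quartic character so that it is defined over
   `F_p` while its points of order three lie in the kernel of `Frobenius - 1 - i`; that kernel has
   `1 + 4N` elements where `N` counts roots of `w^(p+2)+w^2-2` on which a fourth-power residue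
   symbol takes a given value; power sums of the roots give `N` modulo `p` and a bound for `N`.
5. The residue modulo 3, the size and the fourth power of the representative fix it.
-/

namespace Pool.Agent.Results.MP_d8c653_nt.QuestionOne

open Pool.Agent.R856.DC

lemma exists_one {p : ℕ} (hp : p.Prime) (h : p % 12 = 1) : ∃ x y : ℤ, (p:ℤ) = x^2 + 9*y^2 ∧ x % 3 = 1 := by
  haveI : Fact p.Prime := ⟨hp⟩
  obtain ⟨a, b, hab, -⟩ := gauss (p := p) (j := 3*(p/12)) (by omega) (by have := hp.one_lt; omega)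
  have h3 : (a^2 + b^2) % 3 = 1 := by rw [← hab]; omega
  have key : ∀ c d : ℤ, (p:ℤ) = c^2 + d^2 → d % 3 = 0 → c % 3 ≠ 0 → ∃ x y : ℤ, (p:ℤ) = x^2 + 9*y^2 ∧ x % 3 = 1 := by
    intro c d hcd hd hc
    obtain ⟨e, he⟩ : ∃ e, d = 3*e := ⟨d/3, by omega⟩
    rcases (by omega : c % 3 = 1 ∨ c % 3 = 2) with h | h
    · exact ⟨c, e, by rw [hcd, he]; ring, h⟩
    · exact ⟨-c, e, by rw [hcd, he]; ring, by omega⟩
  rcases (by omega : a % 3 = 0 ∨ a % 3 = 1 ∨ a % 3 = 2) with ha | ha | ha <;>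
    rcases (by omega : b % 3 = 0 ∨ b % 3 = 1 ∨ b % 3 = 2) with hb | hb | hb <;>
    simp [pow_two, Int.add_emod, Int.mul_emod, ha, hb] at h3
  · exact key b a (by rw [hab]; ring) ha (by omega)
  · exact key b a (by rw [hab]; ring) ha (by omega)
  · exact key a b hab hb (by omega)
  · exact key a b hab hb (by omega)

lemma exists_five {p : ℕ} (hp : p.Prime) (h : p % 12 = 5) : ∃ x y : ℤ, 2*(p:ℤ) = x^2 + 9*y^2 ∧ x % 3 = 1 := by
  haveI : Fact p.Prime := ⟨hp⟩
  obtain ⟨a, b, hab, -⟩ := gauss (p := p) (j := 3*(p/12)+1) (by omega) (by omega)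
  have h3 : (a^2 + b^2) % 3 = 2 := by rw [← hab]; omega
  have key : ∀ c d : ℤ, (p:ℤ) = c^2 + d^2 → (c - d) % 3 = 0 → c % 3 ≠ 0 → ∃ x y : ℤ, 2*(p:ℤ) = x^2 + 9*y^2 ∧ x % 3 = 1 := by
    intro c d hcd hd hc
    obtain ⟨e, he⟩ : ∃ e, c = d + 3*e := ⟨(c-d)/3, by omega⟩
    rcases (by omega : c % 3 = 1 ∨ c % 3 = 2) with h | h
    · exact ⟨-(c+d), e, by rw [hcd, he]; ring, by omega⟩
    · exact ⟨c+d, e, by rw [hcd, he]; ring, by omega⟩
  rcases (by omega : a % 3 = 0 ∨ a % 3 = 1 ∨ a % 3 = 2) with ha | ha | ha <;>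
    rcases (by omega : b % 3 = 0 ∨ b % 3 = 1 ∨ b % 3 = 2) with hb | hb | hb <;>
    simp [pow_two, Int.add_emod, Int.mul_emod, ha, hb] at h3
  · exact key a b hab (by omega) (by omega)
  · exact key a (-b) (by rw [hab]; ring) (by omega) (by omega)
  · exact key a (-b) (by rw [hab]; ring) (by omega) (by omega)
  · exact key a b hab (by omega) (by omega)

/-- For every prime `p = 1 (mod 4)`: either `p = 1 (mod 12)`, and then `p = x^2+9y^2` with
`x = 1 (mod 3)` is solvable and every such `x` satisfies `(-1)^[p/12] C([p/3],[p/12]) = 2x (mod p)`;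
or `p = 5 (mod 12)`, and then `2p = x^2+9y^2` with `x = 1 (mod 3)` is solvable and every such `x`
satisfies `(-1)^[p/12] C([p/3],[p/12]) = x (mod p)`. -/
theorem result (p : ℕ) (hp : p.Prime) (h4 : p % 4 = 1) :
    (p % 12 = 1 ∧ (∃ x y : ℤ, (p:ℤ) = x^2 + 9*y^2 ∧ x % 3 = 1) ∧
      ∀ x y : ℤ, (p:ℤ) = x^2 + 9*y^2 → x % 3 = 1 →
        (-1)^(p/12) * ((p/3).choose (p/12) : ℤ) ≡ 2*x [ZMOD p]) ∨
    (p % 12 = 5 ∧ (∃ x y : ℤ, 2*(p:ℤ) = x^2 + 9*y^2 ∧ x % 3 = 1) ∧
      ∀ x y : ℤ, 2*(p:ℤ) = x^2 + 9*y^2 → x % 3 = 1 →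
        (-1)^(p/12) * ((p/3).choose (p/12) : ℤ) ≡ x [ZMOD p]) := by
  haveI : Fact p.Prime := ⟨hp⟩
  have h3 : p % 3 ≠ 0 := by
    intro h
    have : 3 ∣ p := Nat.dvd_of_mod_eq_zero h
    have := (Nat.prime_dvd_prime_iff_eq Nat.prime_three hp).mp this
    omega
  rcases (by omega : p % 12 = 1 ∨ p % 12 = 5) with h | h
  · left
    refine ⟨h, exists_one hp h, ?_⟩
    intro x y hxy hx
    obtain ⟨k, hk⟩ : ∃ k, 12*k+1 = p := ⟨p/12, by omega⟩
    obtain ⟨X, a, b, hab, h3X, h2X, hb1, hb2, hd, hB⟩ := one (p := p) hk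
    have hXx : X = 2*x := arith1 hp (by omega) hab hxy hx h3X h2X hb1 hb2 hd
    rw [show p/12 = k by omega, show p/3 = 4*k by omega, ← ZMod.intCast_eq_intCast_iff]
    rw [← hXx, hB]
    push_cast
    rfl
  · right
    refine ⟨h, exists_five hp h, ?_⟩
    intro x y hxy hx
    obtain ⟨k, hk⟩ : ∃ k, 12*k+5 = p := ⟨p/12, by omega⟩
    rcases Nat.lt_or_ge p 11 with hlt | hge
    · have hp5 : p = 5 := by omega
      subst hp5
      have hx1 : -4 < x ∧ x < 4 := abs_lt.mp (abs_lt_of_sq_lt_sq (by push_cast at hxy; nlinarith [sq_nonneg y]) (by norm_num))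
      have hy1 : -2 < y ∧ y < 2 := abs_lt.mp (abs_lt_of_sq_lt_sq (by push_cast at hxy; nlinarith [sq_nonneg x]) (by norm_num))
      obtain ⟨hx1, hx2⟩ := hx1
      obtain ⟨hy1, hy2⟩ := hy1
      have : x = 1 := by
        push_cast at hxy
        interval_cases x <;> interval_cases y <;> omega
      subst this
      decide
    · obtain ⟨X, a, b, hab, h3X, hb1, hb2, hd, hB⟩ := five (p := p) hk
      have hXx : X = x := arith5 hp hge hab hxy hx h3X hb1 hb2 hd
      rw [show p/12 = k by omega, show p/3 = 4*k+1 by omega, ← ZMod.intCast_eq_intCast_iff]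
      rw [← hXx, hB]
      push_cast
      rfl

end Pool.Agent.Results.MP_d8c653_nt.QuestionOne
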